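import Pool.Agent.H2.WG.Law

/-!
# The common growth rate
-/

open Module MvPolynomial TensorProduct Filter Topology

namespace Pool.Agent.H2.WG

open Pool.Agent.H14.RF Pool.Agent.H15.Defect Pool.Agent.H12.Defect Pool.Agent.H14.MM

universe u

section real

/-- polynomials grow slower than exponentials -/
theorem eventually_poly_le {a b : ℝ} (ha : 0 < a) (hab : a < b) (C : ℝ) (c K : ℕ) :
    ∀ᶠ N : ℕ in atTop, C * (c * N + 1 : ℝ) ^ K * a ^ N ≤ b ^ N := by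
  have hb : 0 < b := ha.trans hab
  have hr : |a / b| < 1 := by
    rw [abs_of_pos (by positivity), div_lt_one hb]; exact hab
  have h1 := tendsto_pow_const_mul_const_pow_of_abs_lt_one K hr
  have h2 := h1.const_mul (|C| * (c + 1 : ℝ) ^ K)
  rw [mul_zero] at h2
  filter_upwards [h2.eventually (gt_mem_nhds one_pos), eventually_ge_atTop 1] with N hN hN1
  have hN' : (1 : ℝ) ≤ N := by exact_mod_cast hN1
  have hc : (0 : ℝ) ≤ c := Nat.cast_nonneg c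
  have h3 : (c * N + 1 : ℝ) ^ K ≤ (c + 1 : ℝ) ^ K * (N : ℝ) ^ K := by
    rw [← mul_pow]
    apply pow_le_pow_left₀ (by positivity)
    nlinarith
  have hbN : 0 < b ^ N := by positivity
  have h4 : |C| * (c + 1 : ℝ) ^ K * ((N : ℝ) ^ K * (a / b) ^ N) < 1 := hN
  rw [div_pow] at h4
  calc C * (c * N + 1 : ℝ) ^ K * a ^ N ≤ |C| * ((c + 1 : ℝ) ^ K * (N : ℝ) ^ K) * a ^ N := by
        apply mul_le_mul_of_nonneg_right _ (by positivity)
        exact mul_le_mul (le_abs_self C) h3 (by positivity) (abs_nonneg C)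
    _ = (|C| * (c + 1 : ℝ) ^ K * ((N : ℝ) ^ K * (a ^ N / b ^ N))) * b ^ N := by field_simp
    _ ≤ 1 * b ^ N := by gcongr
    _ = _ := one_mul _

theorem rpow_root_le {x ρ : ℝ} {N : ℕ} (hN : 1 ≤ N) (hx : 0 ≤ x) (hρ : 0 ≤ ρ) (h : x ≤ ρ ^ N) :
    x ^ (1 / (N : ℝ)) ≤ ρ := by
  have hN0 : (N : ℝ) ≠ 0 := by
    have : N ≠ 0 := by omega
    exact_mod_cast this
  calc x ^ (1 / (N : ℝ)) ≤ (ρ ^ N) ^ (1 / (N : ℝ)) :=
        Real.rpow_le_rpow hx h (by positivity)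
    _ = ρ := by
        rw [← Real.rpow_natCast, ← Real.rpow_mul hρ, mul_one_div_cancel hN0, Real.rpow_one]

theorem le_rpow_root {x ρ : ℝ} {N : ℕ} (hN : 1 ≤ N) (hρ : 0 ≤ ρ) (h : ρ ^ N ≤ x) :
    ρ ≤ x ^ (1 / (N : ℝ)) := by
  have hN0 : (N : ℝ) ≠ 0 := by
    have : N ≠ 0 := by omega
    exact_mod_cast this
  calc ρ = (ρ ^ N) ^ (1 / (N : ℝ)) := by
        rw [← Real.rpow_natCast, ← Real.rpow_mul hρ, mul_one_div_cancel hN0, Real.rpow_one]
    _ ≤ _ := Real.rpow_le_rpow (by positivity) h (by positivity)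

theorem rpow_root_pow {x : ℝ} {N : ℕ} (hN : 1 ≤ N) (hx : 0 ≤ x) : (x ^ (1 / (N : ℝ))) ^ N = x := by
  have hN0 : (N : ℝ) ≠ 0 := by
    have : N ≠ 0 := by omega
    exact_mod_cast this
  rw [← Real.rpow_natCast, ← Real.rpow_mul hx, one_div_mul_cancel hN0, Real.rpow_one]

theorem growth_limit {x : ℕ → ℝ} {g : ℝ} (hg : 0 < g) (c : ℕ) (hx : ∀ N, 0 ≤ x N)
    (h1 : ∀ N : ℕ, 1 ≤ N → g ^ N ≤ (c * N + 1 : ℝ) ^ 2 * x N)
    (h2 : ∀ ρ : ℝ, g < ρ → ∀ᶠ N : ℕ in atTop, x N ≤ ρ ^ N) :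
    Tendsto (fun N : ℕ => x N ^ (1 / (N : ℝ))) atTop (𝓝 g) := by
  rw [tendsto_order]
  constructor
  · intro a ha
    set b : ℝ := max a (g / 2) with hb
    have hbg : b < g := max_lt ha (by linarith)
    have hb0 : 0 < b := lt_of_lt_of_le (by linarith) (le_max_right a (g / 2))
    set b' : ℝ := (b + g) / 2 with hb'
    have hbb : b < b' := by rw [hb']; linarith
    have hbg' : b' < g := by rw [hb']; linarith
    filter_upwards [eventually_poly_le (hb0.trans hbb) hbg' 1 c 2, eventually_ge_atTop 1] with N hN hN1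
    have hp : (0 : ℝ) < (c * N + 1 : ℝ) ^ 2 := by positivity
    have h3 : b' ^ N ≤ x N := by
      have h4 := hN.trans (h1 N hN1)
      rw [one_mul] at h4
      exact le_of_mul_le_mul_left h4 hp
    exact lt_of_lt_of_le ((le_max_left a (g / 2)).trans_lt hbb)
      (le_rpow_root hN1 (hb0.trans hbb).le h3)
  · intro a ha
    set b : ℝ := (a + g) / 2 with hb
    have h3 : g < b := by rw [hb]; linarith
    have h4 : b < a := by rw [hb]; linarith
    filter_upwards [h2 b h3, eventually_ge_atTop 1] with N hN hN1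
    exact lt_of_le_of_lt (rpow_root_le hN1 (hx N) (hg.trans h3).le hN) h4

end real

section rate

variable {k : Type u} [Field k] {σ : Type} [Fintype σ]

omit [Fintype σ] in
/-- the growth rate -/
noncomputable def gr (φ : MvPolynomial σ k →ₗ[k] k) (c : ℕ) : ℝ :=
  ⨅ n : ℕ, ((((c * (n + 1) + 1) * Dn φ (n + 1) : ℕ) : ℝ)) ^ (1 / ((n + 1 : ℕ) : ℝ))

variable {φ : MvPolynomial σ k →ₗ[k] k} {c : ℕ}

omit [Fintype σ] in
theorem gr_le (φ : MvPolynomial σ k →ₗ[k] k) (c : ℕ) {n : ℕ} (hn : 1 ≤ n) :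
    gr φ c ≤ (((c * n + 1) * Dn φ n : ℕ) : ℝ) ^ (1 / (n : ℝ)) := by
  obtain ⟨m, rfl⟩ : ∃ m, n = m + 1 := ⟨n - 1, by omega⟩
  exact ciInf_le ⟨0, by rintro _ ⟨j, rfl⟩; positivity⟩ m

omit [Fintype σ] in
theorem gr_nonneg (φ : MvPolynomial σ k →ₗ[k] k) (c : ℕ) : 0 ≤ gr φ c :=
  Real.iInf_nonneg fun _ => by positivity

omit [Fintype σ] in
theorem gr_pow_le (φ : MvPolynomial σ k →ₗ[k] k) (c : ℕ) {n : ℕ} (hn : 1 ≤ n) :
    gr φ c ^ n ≤ (c * n + 1 : ℝ) * Dn φ n := by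
  have h1 := pow_le_pow_left₀ (gr_nonneg φ c) (gr_le φ c hn) n
  rw [rpow_root_pow hn (Nat.cast_nonneg _)] at h1
  push_cast at h1
  exact h1

omit [Fintype σ] in
theorem finrank_le_gr (φ : MvPolynomial σ k →ₗ[k] k) (c : ℕ) :
    (finrank k (FormAlg φ) : ℝ) ≤ gr φ c := by
  refine le_ciInf fun n => ?_
  refine le_rpow_root (by omega) (Nat.cast_nonneg _) ?_
  have h1 : finrank k (FormAlg φ) ^ (n + 1) ≤ (c * (n + 1) + 1) * Dn φ (n + 1) := by
    calc finrank k (FormAlg φ) ^ (n + 1) ≤ Dn φ (n + 1) := Nat.le_add_right _ _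
      _ ≤ _ := Nat.le_mul_of_pos_left _ (Nat.succ_pos _)
  exact_mod_cast h1

theorem one_le_finrank (hφ : IsForm φ c) (hφ0 : φ ≠ 0) : (1 : ℝ) ≤ finrank k (FormAlg φ) := by
  have := hφ.finite
  have := nontrivial_formAlg hφ0
  exact_mod_cast Module.finrank_pos (R := k) (M := FormAlg φ)

/-- **Waring ranks grow at most at the rate `gr`.** -/
theorem Wn_le_pow [Infinite k] (hφ : IsForm φ c) (hφ0 : φ ≠ 0) {ρ : ℝ} (hρ : gr φ c < ρ) :
    ∀ᶠ N : ℕ in atTop, (Wn φ c N : ℝ) ≤ ρ ^ N := by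
  have hfin := hφ.finite
  obtain ⟨m, hm⟩ := exists_lt_of_ciInf_lt hρ
  set n := m + 1 with hn
  set β : ℝ := (((c * n + 1) * Dn φ n : ℕ) : ℝ) with hβ
  set α : ℝ := β ^ (1 / (n : ℝ)) with hα
  have hαρ : α < ρ := hm
  have hn1 : 1 ≤ n := by omega
  have hβ1 : (1 : ℝ) ≤ β := by
    have h1 : 1 ≤ (c * n + 1) * Dn φ n := Nat.one_le_iff_ne_zero.mpr
      (Nat.mul_ne_zero (Nat.succ_ne_zero _) (by have := one_le_Dn (k := k) hφ0 n; omega))
    rw [hβ]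
    exact_mod_cast h1
  have hα1 : 1 ≤ α := Real.one_le_rpow hβ1 (by positivity)
  have hαn : α ^ n = β := rpow_root_pow hn1 (by linarith)
  have h1 : ∀ N : ℕ, (Wn φ c N : ℝ) ≤ (β * 2 ^ Kn σ c n) * (1 * N + 1 : ℝ) ^ Kn σ c n * α ^ N := by
    intro N
    have hN : N ≤ (N / n + 1) * n := by
      have := Nat.div_add_mod N n
      have := Nat.mod_lt N (show 0 < n by omega)
      nlinarith
    have h2 : Wn φ c N ≤ (c * n + 1) ^ (N / n + 1) * ((N / n + 1 + 1) ^ Kn σ c n *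
        Dn φ n ^ (N / n + 1)) := (Wn_mono hφ hφ0 hN).trans (law_lower hφ n (N / n + 1))
    have h3 : (Wn φ c N : ℝ) ≤ β ^ (N / n + 1) * ((N / n + 1 + 1 : ℕ) : ℝ) ^ Kn σ c n := by
      calc (Wn φ c N : ℝ) ≤ (((c * n + 1) ^ (N / n + 1) * ((N / n + 1 + 1) ^ Kn σ c n *
            Dn φ n ^ (N / n + 1)) : ℕ) : ℝ) := by exact_mod_cast h2
        _ = _ := by rw [hβ]; push_cast; rw [mul_pow]; ring
    have h4 : ((N / n + 1 + 1 : ℕ) : ℝ) ≤ 2 * (1 * N + 1) := by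
      have h5 : N / n + 1 + 1 ≤ 2 * (N + 1) := by
        have := Nat.div_le_self N n
        omega
      calc ((N / n + 1 + 1 : ℕ) : ℝ) ≤ ((2 * (N + 1) : ℕ) : ℝ) := by exact_mod_cast h5
        _ = _ := by push_cast; ring
    have h6 : β ^ (N / n + 1) ≤ β * α ^ N := by
      rw [pow_succ, mul_comm]
      apply mul_le_mul_of_nonneg_left _ (by linarith)
      rw [← hαn, ← pow_mul]
      exact pow_le_pow_right₀ hα1 (Nat.mul_div_le N n)
    calc (Wn φ c N : ℝ) ≤ β ^ (N / n + 1) * ((N / n + 1 + 1 : ℕ) : ℝ) ^ Kn σ c n := h3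
      _ ≤ (β * α ^ N) * (2 * (1 * N + 1)) ^ Kn σ c n := by
          apply mul_le_mul h6 _ (by positivity) (by positivity)
          exact pow_le_pow_left₀ (Nat.cast_nonneg _) h4 _
      _ = _ := by rw [mul_pow]; ring
  have h2 := eventually_poly_le (show 0 < α by linarith) hαρ (β * 2 ^ Kn σ c n) 1 (Kn σ c n)
  filter_upwards [h2] with N hN
  refine (h1 N).trans ?_
  simpa using hN

theorem Dn_le_pow [Infinite k] (hφ : IsForm φ c) (hφ0 : φ ≠ 0) {ρ : ℝ} (hρ : gr φ c < ρ) :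
    ∀ᶠ N : ℕ in atTop, (Dn φ N : ℝ) ≤ ρ ^ N := by
  have hg : 1 ≤ gr φ c := (one_le_finrank hφ hφ0).trans (finrank_le_gr φ c)
  set ρ' : ℝ := (gr φ c + ρ) / 2 with hρ'
  have h1 : gr φ c < ρ' := by rw [hρ']; linarith
  have h2 : ρ' < ρ := by rw [hρ']; linarith
  filter_upwards [Wn_le_pow hφ hφ0 h1, eventually_poly_le (show 0 < ρ' by linarith) h2 1 c 1]
    with N hN hN'
  have h3 : (Dn φ N : ℝ) ≤ (c * N + 1) * Wn φ c N := by exact_mod_cast (law_upper hφ N).2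
  rw [one_mul, pow_one] at hN'
  refine h3.trans (le_trans ?_ hN')
  exact mul_le_mul_of_nonneg_left hN (by positivity)

/-- **The Waring ranks have the growth rate `gr`.** -/
theorem tendsto_Wn [Infinite k] (hφ : IsForm φ c) (hφ0 : φ ≠ 0) :
    Tendsto (fun N : ℕ => (Wn φ c N : ℝ) ^ (1 / (N : ℝ))) atTop (𝓝 (gr φ c)) := by
  have hg : 1 ≤ gr φ c := (one_le_finrank hφ hφ0).trans (finrank_le_gr φ c)
  refine growth_limit (by linarith) c (fun N => Nat.cast_nonneg _) (fun N hN => ?_)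
    (fun ρ hρ => Wn_le_pow hφ hφ0 hρ)
  have h3 : (Dn φ N : ℝ) ≤ (c * N + 1) * Wn φ c N := by exact_mod_cast (law_upper hφ N).2
  calc gr φ c ^ N ≤ (c * N + 1 : ℝ) * Dn φ N := gr_pow_le φ c hN
    _ ≤ (c * N + 1 : ℝ) * ((c * N + 1) * Wn φ c N) := by gcongr
    _ = _ := by ring

/-- **The degrees of the smallest smoothable covers have the growth rate `gr`.** -/
theorem tendsto_Dn [Infinite k] (hφ : IsForm φ c) (hφ0 : φ ≠ 0) :
    Tendsto (fun N : ℕ => (Dn φ N : ℝ) ^ (1 / (N : ℝ))) atTop (𝓝 (gr φ c)) := by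
  have hg : 1 ≤ gr φ c := (one_le_finrank hφ hφ0).trans (finrank_le_gr φ c)
  refine growth_limit (by linarith) c (fun N => Nat.cast_nonneg _) (fun N hN => ?_)
    (fun ρ hρ => Dn_le_pow hφ hφ0 hρ)
  have hp : (1 : ℝ) ≤ c * N + 1 := by
    have : (0 : ℝ) ≤ c * N := by positivity
    linarith
  calc gr φ c ^ N ≤ (c * N + 1 : ℝ) * Dn φ N := gr_pow_le φ c hN
    _ ≤ (c * N + 1 : ℝ) ^ 2 * Dn φ N := by
        apply mul_le_mul_of_nonneg_right _ (Nat.cast_nonneg _)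
        nlinarith

/-- bounds for all exponents -/
theorem bd_of_gr_le [Infinite k] (hφ : IsForm φ c) (hφ0 : φ ≠ 0) {r : ℝ} (h : gr φ c ≤ r) :
    Bd k (FormAlg φ) r := by
  intro ρ hρ
  have hg : 1 ≤ gr φ c := (one_le_finrank hφ hφ0).trans (finrank_le_gr φ c)
  have hρ0 : 0 < ρ := by linarith
  obtain ⟨N₀, hN₀⟩ := (Dn_le_pow hφ hφ0 (lt_of_le_of_lt h hρ)).exists_forall_of_atTop
  refine ⟨1 + ∑ i ∈ Finset.range N₀, (Dn φ i : ℝ) / ρ ^ i, fun n => ⟨Dn φ n, dle_Dn hφ n, ?_⟩⟩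
  have hpos : 0 ≤ ∑ i ∈ Finset.range N₀, (Dn φ i : ℝ) / ρ ^ i :=
    Finset.sum_nonneg fun i _ => by positivity
  have hρn : 0 < ρ ^ n := by positivity
  rcases Nat.lt_or_ge n N₀ with hn | hn
  · have h1 : (Dn φ n : ℝ) / ρ ^ n ≤ ∑ i ∈ Finset.range N₀, (Dn φ i : ℝ) / ρ ^ i :=
      Finset.single_le_sum (f := fun i => (Dn φ i : ℝ) / ρ ^ i) (fun i _ => by positivity)
        (Finset.mem_range.mpr hn)
    have h2 : (Dn φ n : ℝ) = (Dn φ n : ℝ) / ρ ^ n * ρ ^ n := by field_simp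
    rw [h2]
    apply mul_le_mul_of_nonneg_right _ hρn.le
    linarith
  · have h1 := hN₀ n hn
    nlinarith

theorem gr_le_of_bd (hφ : IsForm φ c) {r : ℝ} (hr : 0 ≤ r)
    (h : Bd k (FormAlg φ) r) : gr φ c ≤ r := by
  have hfin := hφ.finite
  refine le_of_forall_gt_imp_ge_of_dense fun ρ hρ => ?_
  set ρ' : ℝ := (r + ρ) / 2 with hρ'
  have h1 : r < ρ' := by rw [hρ']; linarith
  have h2 : ρ' < ρ := by rw [hρ']; linarith
  obtain ⟨C, hC⟩ := h ρ' h1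
  obtain ⟨N, hN, hN1⟩ := ((eventually_poly_le (show 0 < ρ' by linarith) h2 C c 1).and
    (eventually_ge_atTop 1)).exists
  obtain ⟨D, hD, hDle⟩ := hC N
  have h3 : (Dn φ N : ℝ) ≤ C * ρ' ^ N := by
    have : (Dn φ N : ℝ) ≤ D := by exact_mod_cast Dn_le_of_dle hD
    linarith
  have h4 : (((c * N + 1) * Dn φ N : ℕ) : ℝ) ≤ ρ ^ N := by
    push_cast
    rw [pow_one] at hN
    calc (c * N + 1 : ℝ) * Dn φ N ≤ (c * N + 1 : ℝ) * (C * ρ' ^ N) := by gcongr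
      _ = C * (c * N + 1) * ρ' ^ N := by ring
      _ ≤ _ := hN
  exact (gr_le φ c hN1).trans (rpow_root_le hN1 (Nat.cast_nonneg _) (by linarith) h4)

end rate

end Pool.Agent.H2.WG
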