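import Pool.Agent.H2.WG.Growth

/-!
# The equivalences
-/

open Module MvPolynomial TensorProduct Filter Topology

namespace Pool.Agent.H2.WG

open Pool.Agent.H14.RF Pool.Agent.H15.Defect Pool.Agent.H12.Defect Pool.Agent.H14.MM

universe u

variable {k : Type u} [Field k] {σ : Type} [Fintype σ] {φ : MvPolynomial σ k →ₗ[k] k} {c : ℕ}

theorem limit_iff_gr [IsAlgClosed k] (hφ : IsForm φ c) (hφ0 : φ ≠ 0) {e : ℝ} (he : 0 ≤ e) :
    (∀ ε : ℝ, e < ε → Tendsto (growthRatio k (FormAlg φ) ε) atTop (𝓝 0)) ↔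
      gr φ c ≤ (finrank k (FormAlg φ) : ℝ) ^ (1 + e) := by
  have : Infinite k := IsAlgClosed.instInfinite
  have := hφ.finite
  have := nontrivial_formAlg hφ0
  constructor
  · intro h
    obtain ⟨α⟩ := exists_point (k := k) (A := FormAlg φ)
    exact gr_le_of_bd hφ (by positivity) (Bd.of_tendsto he α h)
  · intro h ε hε
    exact (bd_of_gr_le hφ hφ0 h).tendsto hε

theorem eq_zero_of_finrank (hφ : IsForm φ c) (hφ0 : φ ≠ 0) (h : finrank k (FormAlg φ) = 1) :
    c = 0 := by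
  by_contra hc
  have := nontrivial_formAlg hφ0
  obtain ⟨e₀, he₀⟩ : ∃ e₀ : σ →₀ ℕ, φ (monomial e₀ 1) ≠ 0 := by
    by_contra hne
    push Not at hne
    apply hφ0
    refine MvPolynomial.linearMap_ext fun e => LinearMap.ext_ring ?_
    simpa using hne e
  obtain ⟨t, ht⟩ := (finrank_eq_one_iff_of_nonzero' (1 : FormAlg φ) one_ne_zero).mp h
    (Ideal.Quotient.mk _ (monomial e₀ 1))
  have h1 := congrArg (ff φ) ht
  rw [map_smul, ff_mk] at h1
  have h2 : ff φ 1 = 0 := by
    have h3 : (1 : FormAlg φ) = Ideal.Quotient.mk _ (monomial 0 1) := rfl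
    rw [h3, ff_mk]
    apply hφ
    rw [map_zero]
    exact Ne.symm hc
  rw [h2, smul_zero] at h1
  exact he₀ h1.symm

theorem Wn_le_one (N : ℕ) : Wn φ 0 N ≤ 1 := by
  refine waringRank_le (hasWaring_iff.mpr ⟨fun _ => pw φ (Fin N) (monomial 0 1), fun _ => 0,
    fun e he => ?_⟩)
  have h1 : e = 0 := by
    rw [zero_mul] at he
    exact (Finsupp.degree_eq_zero_iff e).mp he
  subst h1
  simp

theorem waring_iff_gr [Infinite k] (hφ : IsForm φ c) (hφ0 : φ ≠ 0) {e : ℝ} (he : 0 ≤ e) :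
    (∀ ε : ℝ, e < ε → ∀ᶠ N : ℕ in atTop,
      (Wn φ c N : ℝ) ≤ (finrank k (FormAlg φ) : ℝ) ^ ((1 + ε) * N)) ↔
      gr φ c ≤ (finrank k (FormAlg φ) : ℝ) ^ (1 + e) := by
  have hfin := hφ.finite
  have hd1 := one_le_finrank hφ hφ0
  have hd0 : (0 : ℝ) < finrank k (FormAlg φ) := by linarith
  constructor
  · intro h
    have h1 : ∀ ε : ℝ, e < ε → gr φ c ≤ (finrank k (FormAlg φ) : ℝ) ^ (1 + ε) := by
      intro ε hε
      refine le_of_tendsto (tendsto_Wn hφ hφ0) ?_
      filter_upwards [h ε hε, eventually_ge_atTop 1] with N hN hN1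
      refine rpow_root_le hN1 (Nat.cast_nonneg _) (by positivity) ?_
      rwa [Real.rpow_mul hd0.le, Real.rpow_natCast] at hN
    have h2 : Tendsto (fun ε : ℝ => (finrank k (FormAlg φ) : ℝ) ^ (1 + ε)) (𝓝[>] e)
        (𝓝 ((finrank k (FormAlg φ) : ℝ) ^ (1 + e))) := by
      apply Tendsto.mono_left _ nhdsWithin_le_nhds
      have : Continuous fun ε : ℝ => (finrank k (FormAlg φ) : ℝ) ^ (1 + ε) :=
        Real.continuous_const_rpow hd0.ne' |>.comp (continuous_const.add continuous_id)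
      exact this.tendsto e
    exact ge_of_tendsto h2 (eventually_nhdsWithin_of_forall fun ε hε => h1 ε hε)
  · intro h ε hε
    rcases Nat.lt_or_ge 1 (finrank k (FormAlg φ)) with hd | hd
    · have hd' : (1 : ℝ) < finrank k (FormAlg φ) := by exact_mod_cast hd
      have h1 : gr φ c < (finrank k (FormAlg φ) : ℝ) ^ (1 + ε) :=
        lt_of_le_of_lt h (Real.rpow_lt_rpow_of_exponent_lt hd' (by linarith))
      filter_upwards [Wn_le_pow hφ hφ0 h1] with N hN
      rwa [Real.rpow_mul hd0.le, Real.rpow_natCast]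
    · have hd' : finrank k (FormAlg φ) = 1 := by
        have h2 : 1 ≤ finrank k (FormAlg φ) := by exact_mod_cast hd1
        omega
      have hc := eq_zero_of_finrank hφ hφ0 hd'
      subst hc
      refine Eventually.of_forall fun N => ?_
      rw [hd', Nat.cast_one, Real.one_rpow]
      exact_mod_cast Wn_le_one N

/-- reduction to forms -/
theorem all_iff_forms [IsAlgClosed k] {e : ℝ} (he : 0 ≤ e) :
    (∀ (A : Type u) [CommRing A] [Algebra k A] [Module.Finite k A] [Nontrivial A] (ε : ℝ),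
      e < ε → Tendsto (growthRatio k A ε) atTop (𝓝 0)) ↔
    (∀ (n c : ℕ) (φ : MvPolynomial (Fin n) k →ₗ[k] k), IsForm φ c → φ ≠ 0 → ∀ ε : ℝ,
      e < ε → Tendsto (growthRatio k (FormAlg φ) ε) atTop (𝓝 0)) := by
  constructor
  · intro h n c φ hφ hφ0 ε hε
    have h1 := hφ.finite
    have h2 := nontrivial_formAlg hφ0
    exact h (FormAlg φ) ε hε
  · intro h A _ _ _ _ ε hε
    refine Bd.tendsto ?_ hε
    refine Bd.of_local (by linarith) (fun A _ _ _ c hA => ?_) (finrank k A) A le_rfl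
    refine Bd.of_forms (by linarith) (fun n c φ hφ hφ0 => ?_) hA
    have h1 := hφ.finite
    have h2 := nontrivial_formAlg hφ0
    obtain ⟨α⟩ := exists_point (k := k) (A := FormAlg φ)
    exact Bd.of_tendsto he α fun ε hε => h n c φ hφ hφ0 ε hε

end Pool.Agent.H2.WG
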