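import Pool.Agent.H2.WG.Basic
import Pool.Agent.H15.Defect.LowerPow

/-!
# Truncated polynomial rings in one variable
-/

open Module

namespace Pool.Agent.H2.WG

open Pool.Agent.H15.Defect Pool.Agent.H12.Defect

universe u

theorem prod_dvd_of_eval {R : Type*} [CommRing R] [IsDomain R] (s : Finset R) :
    ∀ p : Polynomial R, (∀ a ∈ s, p.eval a = 0) →
      (∏ a ∈ s, (Polynomial.X - Polynomial.C a)) ∣ p := by
  classical
  induction s using Finset.induction_on with
  | empty => intro p _; simp
  | insert a s ha ih =>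
    intro p hp
    obtain ⟨q, rfl⟩ := Polynomial.dvd_iff_isRoot.mpr (hp a (Finset.mem_insert_self a s))
    rw [Finset.prod_insert ha]
    refine mul_dvd_mul_left _ (ih q fun b hb => ?_)
    have h1 := hp b (Finset.mem_insert_of_mem hb)
    rw [Polynomial.eval_mul, Polynomial.eval_sub, Polynomial.eval_X, Polynomial.eval_C] at h1
    rcases mul_eq_zero.mp h1 with h2 | h2
    · exact absurd (sub_eq_zero.mp h2 ▸ hb) ha
    · exact h2

variable (k : Type u) [Field k]

/-- `k[t]/t^(L+1)` -/
abbrev Tr (L : ℕ) : Type u := Polynomial k ⧸ Ideal.span {(Polynomial.X : Polynomial k) ^ (L + 1)}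

/-- the generator -/
noncomputable def tr (L : ℕ) : Tr k L := Ideal.Quotient.mk _ Polynomial.X

theorem tr_pow (L : ℕ) : tr k L ^ (L + 1) = 0 := by
  rw [tr, ← map_pow, Ideal.Quotient.eq_zero_iff_mem]
  exact Ideal.subset_span rfl

theorem exists_trFun (L : ℕ) : ∃ w : Tr k L →ₗ[k] k, ∀ j, w (tr k L ^ j) = if j = L then 1 else 0 := by
  obtain ⟨w, hw⟩ := exists_quotFun (k := k) (Ideal.span {(Polynomial.X : Polynomial k) ^ (L + 1)})
    (Polynomial.lcoeff k L) (by
      intro r hr
      obtain ⟨q, rfl⟩ := Ideal.mem_span_singleton.mp hr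
      rw [Polynomial.lcoeff_apply, Polynomial.coeff_X_pow_mul']
      simp)
  refine ⟨w, fun j => ?_⟩
  rw [tr, ← map_pow, hw, Polynomial.lcoeff_apply, Polynomial.coeff_X_pow]
  simp only [eq_comm]

theorem dle_trunc (L : ℕ) : Dle k (Tr k L) (L + 1) := by
  classical
  let c : PowerSeries k →+* Tr k L := (algebraMap k (Tr k L)).comp PowerSeries.constantCoeff
  let φ : Polynomial (PowerSeries k) →+* Tr k L := Polynomial.eval₂RingHom c (tr k L)
  let pt : Fin (L + 1) → PowerSeries k := fun i => PowerSeries.X ^ ((i : ℕ) + 1)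
  have hpt : Function.Injective pt := by
    intro i j hij
    have h1 : (PowerSeries.X : PowerSeries k) ^ ((i : ℕ) + 1) = PowerSeries.X ^ ((j : ℕ) + 1) := hij
    have h2 := congrArg PowerSeries.order h1
    rw [PowerSeries.order_X_pow, PowerSeries.order_X_pow] at h2
    apply Fin.ext
    have h3 : (i : ℕ) + 1 = (j : ℕ) + 1 := by exact_mod_cast h2
    omega
  let ev : Polynomial (PowerSeries k) →ₐ[PowerSeries k] (Fin (L + 1) → PowerSeries k) :=
    AlgHom.pi (fun i => Polynomial.aeval (pt i))
  have hev : ∀ p i, ev p i = p.eval (pt i) := fun p i => by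
    simp [ev, Polynomial.aeval_def, Polynomial.eval₂_eq_eval_map]
  have h := dle_of_arc (k := k) ev φ ?_ ?_ ?_ ?_
  · simpa using h
  · intro z
    obtain ⟨p, rfl⟩ := Ideal.Quotient.mk_surjective z
    refine ⟨p.map PowerSeries.C, ?_⟩
    simp only [φ, Polynomial.coe_eval₂RingHom]
    rw [Polynomial.eval₂_map]
    have h1 : c.comp PowerSeries.C = algebraMap k (Tr k L) := by
      ext r
      simp [c]
    rw [h1]
    have h2 : (Ideal.Quotient.mk (Ideal.span {(Polynomial.X : Polynomial k) ^ (L + 1)})) p =
        Polynomial.aeval (tr k L) p := by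
      have h3 : Ideal.Quotient.mkₐ k (Ideal.span {(Polynomial.X : Polynomial k) ^ (L + 1)}) =
          Polynomial.aeval (tr k L) := by
        apply Polynomial.algHom_ext
        rw [Polynomial.aeval_X]
        rfl
      exact DFunLike.congr_fun h3 p
    rw [h2]
    rfl
  · show φ (algebraMap (PowerSeries k) (Polynomial (PowerSeries k)) PowerSeries.X) = 0
    rw [Polynomial.algebraMap_eq]
    simp [φ, c]
  · intro r
    show φ (algebraMap (PowerSeries k) (Polynomial (PowerSeries k)) (PowerSeries.C r)) = _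
    rw [Polynomial.algebraMap_eq]
    simp [φ, c]
  · intro p hp
    obtain ⟨q, hq⟩ := prod_dvd_of_eval (Finset.univ.image pt) p (by
      intro a ha
      obtain ⟨i, -, rfl⟩ := Finset.mem_image.mp ha
      rw [← hev, hp]
      rfl)
    rw [hq, map_mul, map_prod, Finset.prod_image fun i _ j _ hij => hpt hij]
    have h1 : ∀ i ∈ (Finset.univ : Finset (Fin (L + 1))),
        φ (Polynomial.X - Polynomial.C (pt i)) = tr k L := by
      intro i _
      have h2 : φ (Polynomial.C (pt i)) = 0 := by
        show Polynomial.eval₂ c (tr k L) (Polynomial.C (pt i)) = 0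
        rw [Polynomial.eval₂_C]
        show algebraMap k (Tr k L) (PowerSeries.constantCoeff (PowerSeries.X ^ ((i : ℕ) + 1))) = 0
        rw [map_pow, PowerSeries.constantCoeff_X, zero_pow (Nat.succ_ne_zero _), map_zero]
      rw [map_sub, h2, sub_zero]
      exact Polynomial.eval₂_X _ _
    rw [Finset.prod_congr rfl h1, Finset.prod_const, Finset.card_univ, Fintype.card_fin, tr_pow,
      zero_mul]

end Pool.Agent.H2.WG
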