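import Pool.Agent.H2.WG.Defs
import Pool.Agent.H14.RF.Defs

/-!
# Waring ranks, basic facts
-/

open MvPolynomial

namespace Pool.Agent.H2.WG

open Pool.Agent.H14.RF

variable {k : Type*} [Field k]

theorem hasWaring_iff {τ : Type} {ψ : MvPolynomial τ k →ₗ[k] k} {L r : ℕ} :
    HasWaring ψ L r ↔ ∃ (c : Fin r → k) (a : Fin r → τ → k), ∀ e : τ →₀ ℕ, e.degree = L →
      ψ (monomial e 1) = ∑ s, c s * e.prod fun q n => a s q ^ n := by
  constructor
  · rintro ⟨c, a, h⟩
    refine ⟨c, a, fun e he => ?_⟩
    rw [h _ (isHomogeneous_monomial _ he)]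
    refine Finset.sum_congr rfl fun s _ => ?_
    rw [eval_monomial, one_mul]
  · rintro ⟨c, a, h⟩
    refine ⟨c, a, fun g hg => ?_⟩
    have h1 : ∀ e ∈ g.support, ψ (monomial e (coeff e g)) =
        ∑ s, c s * eval (a s) (monomial e (coeff e g)) := by
      intro e he
      have h2 : e.degree = L := by
        have := hg (mem_support_iff.mp he)
        rwa [Finsupp.degree_eq_weight_one]
      have h3 : (monomial e (coeff e g) : MvPolynomial τ k) = coeff e g • monomial e 1 := by
        rw [smul_monomial, smul_eq_mul, mul_one]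
      rw [h3, map_smul, h e h2, smul_eq_mul, Finset.mul_sum]
      refine Finset.sum_congr rfl fun s _ => ?_
      rw [smul_eval, eval_monomial]
      ring
    conv_lhs => rw [← support_sum_monomial_coeff g]
    rw [map_sum, Finset.sum_congr rfl h1, Finset.sum_comm]
    refine Finset.sum_congr rfl fun s _ => ?_
    rw [← Finset.mul_sum, ← map_sum, support_sum_monomial_coeff]

theorem HasWaring.of_fintype {τ : Type} {ψ : MvPolynomial τ k →ₗ[k] k} {L r : ℕ} {ι : Type*}
    [Fintype ι] (hr : Fintype.card ι ≤ r) (c : ι → k) (a : ι → τ → k)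
    (h : ∀ e : τ →₀ ℕ, e.degree = L →
      ψ (monomial e 1) = ∑ s, c s * e.prod fun q n => a s q ^ n) : HasWaring ψ L r := by
  classical
  rw [hasWaring_iff]
  obtain ⟨f⟩ := Function.Embedding.nonempty_of_card_le
    (show Fintype.card ι ≤ Fintype.card (Fin r) by rwa [Fintype.card_fin])
  let c' : Fin r → k := fun t => if h : ∃ s, f s = t then c h.choose else 0
  let a' : Fin r → τ → k := fun t => if h : ∃ s, f s = t then a h.choose else 0
  have hc' : ∀ s, c' (f s) = c s := by
    intro s
    have h1 : ∃ s', f s' = f s := ⟨s, rfl⟩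
    have h2 : h1.choose = s := f.injective h1.choose_spec
    simp only [c', dif_pos h1, h2]
  have ha' : ∀ s, a' (f s) = a s := by
    intro s
    have h1 : ∃ s', f s' = f s := ⟨s, rfl⟩
    have h2 : h1.choose = s := f.injective h1.choose_spec
    simp only [a', dif_pos h1, h2]
  refine ⟨c', a', fun e he => ?_⟩
  rw [h e he]
  have h3 : ∑ s, c s * (e.prod fun q n => a s q ^ n) =
      ∑ t ∈ Finset.univ.map f, c' t * e.prod fun q n => a' t q ^ n := by
    rw [Finset.sum_map]
    refine Finset.sum_congr rfl fun s _ => ?_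
    rw [hc', ha']
  rw [h3]
  refine Finset.sum_subset (Finset.subset_univ _) fun t _ ht => ?_
  have h4 : ¬ ∃ s, f s = t := by
    rintro ⟨s, rfl⟩
    exact ht (Finset.mem_map_of_mem f (Finset.mem_univ s))
  simp only [c', dif_neg h4, zero_mul]

theorem HasWaring.mono {τ : Type} {ψ : MvPolynomial τ k →ₗ[k] k} {L r r' : ℕ}
    (h : HasWaring ψ L r) (hr : r ≤ r') : HasWaring ψ L r' := by
  obtain ⟨c, a, h⟩ := hasWaring_iff.mp h
  exact HasWaring.of_fintype (by rwa [Fintype.card_fin]) c a h

section pw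

variable {σ : Type} {φ : MvPolynomial σ k →ₗ[k] k}

theorem pw_monomial (J : Type) [Fintype J] (e : (J × σ) →₀ ℕ) :
    pw φ J (monomial e 1) = ∏ j, φ (monomial (e.curry j) 1) := by
  have h := (basisMonomials (J × σ) k).constr_basis k
    (fun e => ∏ j, φ (monomial (e.curry j) 1)) e
  rwa [coe_basisMonomials] at h

theorem degree_eq_sum {τ : Type} [Fintype τ] (e : τ →₀ ℕ) : e.degree = ∑ q, e q := by
  rw [Finsupp.degree_apply]
  exact Finset.sum_subset (Finset.subset_univ _) fun q _ hq => Finsupp.notMem_support_iff.mp hq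

theorem degree_curry [Fintype σ] {J : Type} [Fintype J] (e : (J × σ) →₀ ℕ) :
    e.degree = ∑ j, (e.curry j).degree := by
  rw [degree_eq_sum, Fintype.sum_prod_type]
  refine Finset.sum_congr rfl fun j _ => ?_
  rw [degree_eq_sum]
  refine Finset.sum_congr rfl fun i _ => ?_
  rw [Finsupp.curry_apply]

theorem isForm_pw [Fintype σ] {c : ℕ} (hφ : IsForm φ c) (J : Type) [Fintype J] :
    IsForm (pw φ J) (c * Fintype.card J) := by
  intro e he
  rw [pw_monomial, Finset.prod_eq_zero_iff]
  by_contra hne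
  push Not at hne
  apply he
  have h1 : ∀ j, (e.curry j).degree = c := by
    intro j
    by_contra h2
    exact hne j (Finset.mem_univ _) (hφ _ h2)
  rw [degree_curry, Finset.sum_congr rfl fun j _ => h1 j, Finset.sum_const, Finset.card_univ,
    smul_eq_mul, mul_comm]

end pw

/-- functionals on quotients -/
theorem exists_quotFun {R : Type*} [CommRing R] [Algebra k R] (I : Ideal R) (f : R →ₗ[k] k)
    (h : ∀ r ∈ I, f r = 0) : ∃ w : (R ⧸ I) →ₗ[k] k, ∀ r, w (Ideal.Quotient.mk I r) = f r := by
  let π := (Ideal.Quotient.mkₐ k I).toLinearMap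
  have hπ : Function.Surjective π := Ideal.Quotient.mk_surjective
  have hker : LinearMap.ker π ≤ LinearMap.ker f := by
    intro g hg
    exact h g (Ideal.Quotient.eq_zero_iff_mem.mp hg)
  refine ⟨(Submodule.liftQ _ f hker) ∘ₗ (π.quotKerEquivOfSurjective hπ).symm.toLinearMap, ?_⟩
  intro g
  have h3 : (π.quotKerEquivOfSurjective hπ).symm (Ideal.Quotient.mk _ g) =
      Submodule.Quotient.mk g := by
    rw [LinearEquiv.symm_apply_eq]
    rfl
  rw [LinearMap.comp_apply, LinearEquiv.coe_coe, h3, Submodule.liftQ_apply]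

end Pool.Agent.H2.WG
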