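import Pool.Agent.H2.WG.Basic
import Pool.Agent.H14.RF.Power
import Pool.Agent.H15.Defect.LowerPow

/-!
# The apolar algebra of a product of forms
-/

open Module MvPolynomial TensorProduct

namespace Pool.Agent.H2.WG

open Pool.Agent.H14.RF Pool.Agent.H15.Defect

universe u

section form

variable {k : Type u} [Field k] {σ : Type} {φ : MvPolynomial σ k →ₗ[k] k}

variable (φ) in
theorem exists_formFun :
    ∃ w : FormAlg φ →ₗ[k] k, ∀ g, w (Ideal.Quotient.mk _ g) = φ g :=
  exists_quotFun (annIdeal φ) φ fun r hr => by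
    have := hr 1
    rwa [mul_one] at this

variable (φ) in
/-- the functional of the apolar algebra -/
noncomputable def ff : FormAlg φ →ₗ[k] k := (exists_formFun φ).choose

theorem ff_mk (g : MvPolynomial σ k) : ff φ (Ideal.Quotient.mk _ g) = φ g :=
  (exists_formFun φ).choose_spec g

theorem ff_nondeg {x : FormAlg φ} (h : ∀ y, ff φ (x * y) = 0) : x = 0 := by
  obtain ⟨g, rfl⟩ := Ideal.Quotient.mk_surjective x
  rw [Ideal.Quotient.eq_zero_iff_mem]
  intro q
  rw [← ff_mk, map_mul]
  exact h _

end form

section nondeg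

variable {k : Type u} [Field k] {A : Type u} [CommRing A] [Algebra k A] [Module.Finite k A]

/-- A nondegenerate functional has dual bases. -/
theorem exists_dualBasis (f : A →ₗ[k] k) (hf : ∀ x, (∀ y, f (x * y) = 0) → x = 0) :
    ∃ (ι : Type) (_ : Fintype ι) (_ : DecidableEq ι) (b : Basis ι k A) (b' : ι → A),
      ∀ i j, f (b i * b' j) = if i = j then 1 else 0 := by
  classical
  let b := Module.finBasis k A
  -- the map `A → A^*`
  let L : A →ₗ[k] (A →ₗ[k] k) := LinearMap.mk₂ k (fun x y => f (x * y))
    (fun x x' y => by rw [add_mul, map_add]) (fun c x y => by rw [smul_mul_assoc, map_smul])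
    (fun x y y' => by rw [mul_add, map_add]) (fun c x y => by rw [mul_smul_comm, map_smul])
  have hL : Function.Injective L := by
    rw [injective_iff_map_eq_zero]
    intro x hx
    exact hf x fun y => LinearMap.congr_fun hx y
  have hL' : Function.Surjective L := by
    have h1 : finrank k A = finrank k (A →ₗ[k] k) := (Subspace.dual_finrank_eq (K := k) (V := A)).symm
    exact (LinearMap.injective_iff_surjective_of_finrank_eq_finrank h1).mp hL
  choose b' hb' using fun j => hL' (b.coord j)
  refine ⟨Fin (finrank k A), inferInstance, inferInstance, b, b', fun i j => ?_⟩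
  have h2 := LinearMap.congr_fun (hb' j) (b i)
  rw [mul_comm]
  have h3 : L (b' j) (b i) = f (b' j * b i) := rfl
  rw [← h3, h2, Basis.coord_apply, Basis.repr_self, Finsupp.single_apply]

/-- The power of a nondegenerate functional is nondegenerate. -/
theorem prodFun_nondeg (f : A →ₗ[k] k) (hf : ∀ x, (∀ y, f (x * y) = 0) → x = 0) (n : ℕ)
    {x : ⨂[k] _ : Fin n, A} (h : ∀ y, prodFun (fun _ => f) (x * y) = 0) : x = 0 := by
  classical
  obtain ⟨ι, _, _, b, b', hb⟩ := exists_dualBasis f hf
  let B := Basis.piTensorProduct (fun _ : Fin n => b)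
  have h1 : ∀ p : Fin n → ι, B.repr x p = 0 := by
    intro p
    have h2 := h (PiTensorProduct.tprod k fun j => b' (p j))
    rw [← B.sum_repr x, Finset.sum_mul, map_sum, Finset.sum_eq_single p] at h2
    · rw [smul_mul_assoc, map_smul, Basis.piTensorProduct_apply, PiTensorProduct.tprod_mul_tprod,
        prodFun_tprod] at h2
      simp only [Pi.mul_apply, hb, if_true, Finset.prod_const_one, smul_eq_mul, mul_one] at h2
      exact h2
    · intro p' _ hp'
      rw [smul_mul_assoc, map_smul, Basis.piTensorProduct_apply, PiTensorProduct.tprod_mul_tprod,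
        prodFun_tprod]
      obtain ⟨j, hj⟩ := Function.ne_iff.mp hp'
      rw [Finset.prod_eq_zero (Finset.mem_univ j), smul_zero]
      rw [Pi.mul_apply, hb, if_neg hj]
    · intro h3; exact absurd (Finset.mem_univ _) h3
  exact (B.repr.map_eq_zero_iff).mp (Finsupp.ext h1)

end nondeg

section Theta

variable {k : Type u} [Field k] {σ : Type} [Fintype σ] (φ : MvPolynomial σ k →ₗ[k] k)

/-- the map from the polynomial ring in `n` blocks of variables to the power of the apolar
algebra -/
noncomputable def Theta (n : ℕ) : MvPolynomial (Fin n × σ) k →ₐ[k] (⨂[k] _ : Fin n, FormAlg φ) :=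
  aeval fun q => PiTensorProduct.singleAlgHom (R := k) (A := fun _ : Fin n => FormAlg φ) q.1
    (Ideal.Quotient.mk _ (X q.2))

theorem Theta_monomial (n : ℕ) (e : (Fin n × σ) →₀ ℕ) :
    Theta φ n (monomial e 1) = PiTensorProduct.tprod k fun j =>
      Ideal.Quotient.mk (annIdeal φ) (monomial (e.curry j) 1) := by
  classical
  rw [Theta, aeval_monomial, map_one, one_mul, Finsupp.prod_fintype _ _ (fun q => pow_zero _),
    Fintype.prod_prod_type]
  have h1 : ∀ j : Fin n, (∏ i, (PiTensorProduct.singleAlgHom (R := k)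
      (A := fun _ : Fin n => FormAlg φ) j (Ideal.Quotient.mk (annIdeal φ) (X i))) ^ e (j, i)) =
      PiTensorProduct.singleAlgHom (R := k) (A := fun _ : Fin n => FormAlg φ) j
        (Ideal.Quotient.mk (annIdeal φ) (monomial (e.curry j) 1)) := by
    intro j
    have h2 : (monomial (e.curry j) 1 : MvPolynomial σ k) = ∏ i, X i ^ e (j, i) := by
      rw [monomial_eq, Finsupp.prod_fintype _ _ (fun q => pow_zero _), map_one, one_mul]
      refine Finset.prod_congr rfl fun i _ => ?_
      rw [Finsupp.curry_apply]
    rw [h2, map_prod, map_prod]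
    refine Finset.prod_congr rfl fun i _ => ?_
    rw [map_pow, map_pow]
  rw [Finset.prod_congr rfl fun j _ => h1 j]
  simp only [PiTensorProduct.singleAlgHom_apply]
  rw [← PiTensorProduct.tprod_prod]
  exact congrArg (PiTensorProduct.tprod k) (Finset.univ_prod_mulSingle _)

theorem Theta_surjective (n : ℕ) : Function.Surjective (Theta φ n) := by
  refine surjective_of_single _ fun j a => ?_
  obtain ⟨g, rfl⟩ := Ideal.Quotient.mk_surjective a
  refine ⟨rename (fun i => (j, i)) g, ?_⟩
  have h1 : (Theta φ n).comp (rename fun i => (j, i)) =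
      (PiTensorProduct.singleAlgHom (R := k) (A := fun _ : Fin n => FormAlg φ) j).comp
        (Ideal.Quotient.mkₐ k (annIdeal φ)) := by
    apply MvPolynomial.algHom_ext
    intro i
    rw [AlgHom.comp_apply, rename_X, Theta, aeval_X]
    rfl
  exact DFunLike.congr_fun h1 g

theorem prodFun_Theta (n : ℕ) (g : MvPolynomial (Fin n × σ) k) :
    prodFun (fun _ => ff φ) (Theta φ n g) = pw φ (Fin n) g := by
  have h1 : (prodFun (fun _ => ff φ)) ∘ₗ (Theta φ n).toLinearMap = pw φ (Fin n) := by
    refine MvPolynomial.linearMap_ext fun e => LinearMap.ext_ring ?_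
    simp only [LinearMap.coe_comp, Function.comp_apply, AlgHom.toLinearMap_apply]
    rw [Theta_monomial, prodFun_tprod, pw_monomial]
    refine Finset.prod_congr rfl fun j _ => ?_
    rw [ff_mk]
  exact LinearMap.congr_fun h1 g

/-- membership in the kernel of `Theta` -/
theorem Theta_eq_zero [Module.Finite k (FormAlg φ)] {n : ℕ} {g : MvPolynomial (Fin n × σ) k}
    (h : ∀ q, pw φ (Fin n) (g * q) = 0) : Theta φ n g = 0 := by
  refine prodFun_nondeg (ff φ) (fun x hx => ff_nondeg hx) n fun y => ?_
  obtain ⟨q, rfl⟩ := Theta_surjective φ n y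
  rw [← map_mul, prodFun_Theta]
  exact h q

end Theta

end Pool.Agent.H2.WG
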