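import Mathlib

/-!
# Waring ranks and products of forms in disjoint variables

A form of degree `L` in divided powers is given by the linear functional `ψ` on the polynomial ring
whose value on the monomial `x ^ e` is the coefficient of the divided power `X ^ [e]`.
-/

open MvPolynomial

namespace Pool.Agent.H2.WG

variable {k : Type*} [Field k]

/-- The form `ψ` of degree `L` has Waring rank at most `r`: on homogeneous polynomials of degree
`L` it is a linear combination of `r` evaluations at points (that is, `ψ` is a linear combination
of `L`-th (divided) powers of `r` linear forms). -/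
def HasWaring {τ : Type} (ψ : MvPolynomial τ k →ₗ[k] k) (L r : ℕ) : Prop :=
  ∃ (c : Fin r → k) (a : Fin r → τ → k),
    ∀ g : MvPolynomial τ k, g.IsHomogeneous L → ψ g = ∑ s, c s * eval (a s) g

/-- The Waring rank of the form `ψ` of degree `L`. -/
noncomputable def waringRank {τ : Type} (ψ : MvPolynomial τ k →ₗ[k] k) (L : ℕ) : ℕ :=
  sInf {r | HasWaring ψ L r}

/-- The product of copies of `φ`, one for each `j : J`, in disjoint sets of variables: its value on
the monomial `∏ j, x_j ^ (e_j)` is `∏ j, φ (x ^ (e_j))`. -/
noncomputable def pw {σ : Type} (φ : MvPolynomial σ k →ₗ[k] k) (J : Type) [Fintype J] :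
    MvPolynomial (J × σ) k →ₗ[k] k :=
  (basisMonomials (J × σ) k).constr k fun e => ∏ j, φ (monomial (e.curry j) 1)

end Pool.Agent.H2.WG
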