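import Pool.Agent.H2.WG.Span

/-!
# Waring decompositions of products from products of powers; monotonicity
-/

open Module MvPolynomial

namespace Pool.Agent.H2.WG

open Pool.Agent.H14.RF

section weights

variable (k : Type*) [Field k]

theorem exists_weights [Infinite k] (L : ℕ) : ∃ lam κ : Fin (L + 1) → k,
    ∀ j, j ≤ L → ∑ i, κ i * lam i ^ j = if j = L then 1 else 0 := by
  classical
  let lam : Fin (L + 1) → k := fun i => Infinite.natEmbedding k i
  have hlam : Function.Injective lam := fun i j h =>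
    Fin.ext ((Infinite.natEmbedding k).injective h)
  let V : Matrix (Fin (L + 1)) (Fin (L + 1)) k := Matrix.vandermonde lam
  have hV : IsUnit V.det := isUnit_iff_ne_zero.mpr (Matrix.det_vandermonde_ne_zero_iff.mpr hlam)
  let κ : Fin (L + 1) → k := Matrix.vecMul (Pi.single (Fin.last L) 1) V⁻¹
  refine ⟨lam, κ, fun j hj => ?_⟩
  have h1 : Matrix.vecMul κ V = Pi.single (Fin.last L) 1 := by
    simp only [κ]
    rw [Matrix.vecMul_vecMul, Matrix.nonsing_inv_mul _ hV, Matrix.vecMul_one]
  have h2 := congrFun h1 ⟨j, Nat.lt_succ_of_le hj⟩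
  simp only [Matrix.vecMul, dotProduct, V, Matrix.vandermonde_apply] at h2
  rw [h2, Pi.single_apply]
  simp only [Fin.ext_iff, Fin.val_last]

end weights

theorem ev_fintype {K : Type*} [CommRing K] {τ : Type} [Fintype τ] (a : τ → K) (e : τ →₀ ℕ) :
    ev a e = ∏ q, a q ^ e q := Finsupp.prod_fintype _ _ fun q => pow_zero _

section extract

variable {k : Type*} [Field k] {τ : Type} [Fintype τ]

theorem ev_block {M : ℕ} (t : Fin M → k) (a : Fin M → τ → k) (e : (Fin M × τ) →₀ ℕ) :
    ev (fun q => t q.1 * a q.1 q.2) e =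
      ∏ j, (t j ^ (e.curry j).degree * ev (a j) (e.curry j)) := by
  rw [ev_fintype, Fintype.prod_prod_type]
  refine Finset.prod_congr rfl fun j _ => ?_
  rw [ev_fintype, degree_eq_sum, ← Finset.prod_pow_eq_pow_sum, ← Finset.prod_mul_distrib]
  refine Finset.prod_congr rfl fun i _ => ?_
  rw [Finsupp.curry_apply, mul_pow]

/-- **Extraction.** -/
theorem hasWaring_of_PR [Infinite k] {ψ : MvPolynomial τ k →ₗ[k] k} {L : ℕ} (hψ : IsForm ψ L)
    {M r : ℕ} (h : PR (Mpow M fun e : Exps τ L => ψ (monomial e.1 1)) r) :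
    HasWaring (pw ψ (Fin M)) (L * M) ((L + 1) ^ M * r) := by
  classical
  obtain ⟨ι, _, c, a, hr, h⟩ := h
  obtain ⟨lam, κ, hκ⟩ := exists_weights k L
  refine HasWaring.of_fintype (ι := (Fin M → Fin (L + 1)) × ι) ?_
    (fun s => (∏ j, κ (s.1 j)) * c s.2) (fun s q => lam (s.1 q.1) * a s.2 q.1 q.2) ?_
  · rw [Fintype.card_prod, Fintype.card_fun, Fintype.card_fin, Fintype.card_fin]
    exact Nat.mul_le_mul_left _ hr
  intro e he
  have h1 : ∑ s : (Fin M → Fin (L + 1)) × ι, ((∏ j, κ (s.1 j)) * c s.2) *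
      (e.prod fun q n => (lam (s.1 q.1) * a s.2 q.1 q.2) ^ n) =
      ∑ s : ι, c s * ∏ j, ((∑ i, κ i * lam i ^ (e.curry j).degree) * ev (a s j) (e.curry j)) := by
    rw [Fintype.sum_prod_type, Finset.sum_comm]
    refine Finset.sum_congr rfl fun s _ => ?_
    rw [Finset.prod_mul_distrib, Finset.prod_univ_sum, Finset.sum_mul, Finset.mul_sum]
    simp only [Fintype.piFinset_univ]
    refine Finset.sum_congr rfl fun l _ => ?_
    have h2 := ev_block (fun j => lam (l j)) (a s) e
    rw [ev] at h2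
    rw [h2, Finset.prod_mul_distrib, Finset.prod_mul_distrib]
    ring
  rw [h1, pw_monomial]
  by_cases hall : ∀ j, (e.curry j).degree = L
  · have h3 := h fun j => ⟨e.curry j, hall j⟩
    simp only [Mpow] at h3
    rw [h3]
    refine Finset.sum_congr rfl fun s _ => ?_
    congr 1
    refine Finset.prod_congr rfl fun j _ => ?_
    rw [hκ _ (hall j).le, if_pos (hall j), one_mul]
  · push Not at hall
    obtain ⟨j, hj⟩ := hall
    rw [Finset.prod_eq_zero (Finset.mem_univ j) (hψ _ hj)]
    symm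
    have hlt : ∃ j, (e.curry j).degree < L := by
      by_contra hge
      push Not at hge
      have h4 : ∑ _j : Fin M, L < ∑ j : Fin M, (e.curry j).degree :=
        Finset.sum_lt_sum (fun j _ => hge j) ⟨j, Finset.mem_univ _, lt_of_le_of_ne (hge j) (Ne.symm hj)⟩
      rw [← degree_curry, he, Finset.sum_const, Finset.card_univ, Fintype.card_fin, smul_eq_mul,
        mul_comm] at h4
      exact lt_irrefl _ h4
    obtain ⟨j', hj'⟩ := hlt
    refine Finset.sum_eq_zero fun s _ => ?_
    rw [Finset.prod_eq_zero (Finset.mem_univ j'), mul_zero]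
    rw [hκ _ hj'.le, if_neg hj'.ne, zero_mul]

end extract

section reindex

variable {k : Type*} [Field k]

theorem hasWaring_reindex {τ τ' : Type} [Fintype τ] [Fintype τ'] (E : τ' ≃ τ)
    {ψ : MvPolynomial τ k →ₗ[k] k}
    {ψ' : MvPolynomial τ' k →ₗ[k] k}
    (h : ∀ e : τ' →₀ ℕ, ψ' (monomial e 1) = ψ (monomial (e.mapDomain E) 1)) {L r : ℕ}
    (hψ : HasWaring ψ L r) : HasWaring ψ' L r := by
  obtain ⟨c, a, h1⟩ := hasWaring_iff.mp hψ
  refine hasWaring_iff.mpr ⟨c, fun s q => a s (E q), fun e he => ?_⟩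
  have h2 : (e.mapDomain E).degree = L := by
    rw [← he, degree_eq_sum, degree_eq_sum, ← E.sum_comp]
    refine Finset.sum_congr rfl fun q _ => ?_
    rw [Finsupp.mapDomain_equiv_apply, Equiv.symm_apply_apply]
  rw [h, h1 _ h2]
  refine Finset.sum_congr rfl fun s _ => ?_
  congr 1
  have h3 := ev_fintype (a s) (e.mapDomain E)
  have h4 := ev_fintype (fun q => a s (E q)) e
  rw [ev] at h3 h4
  rw [h3, h4, ← E.prod_comp]
  refine Finset.prod_congr rfl fun q _ => ?_
  rw [Finsupp.mapDomain_equiv_apply, Equiv.symm_apply_apply]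

variable {σ : Type} [Fintype σ] {φ : MvPolynomial σ k →ₗ[k] k}

theorem hasWaring_pw_pw {n M L r : ℕ} (h : HasWaring (pw (pw φ (Fin n)) (Fin M)) L r) :
    HasWaring (pw φ (Fin (M * n))) L r := by
  let E : (Fin (M * n) × σ) ≃ (Fin M × (Fin n × σ)) :=
    (finProdFinEquiv.symm.prodCongr (Equiv.refl σ)).trans (Equiv.prodAssoc _ _ _)
  refine hasWaring_reindex E (fun e => ?_) h
  rw [pw_monomial, pw_monomial, ← finProdFinEquiv.prod_comp, Fintype.prod_prod_type]
  refine Finset.prod_congr rfl fun a _ => ?_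
  rw [pw_monomial]
  refine Finset.prod_congr rfl fun b _ => ?_
  have h1 : e.curry (finProdFinEquiv (a, b)) = ((e.mapDomain E).curry a).curry b := by
    ext i
    rw [Finsupp.curry_apply, Finsupp.curry_apply, Finsupp.curry_apply,
      Finsupp.mapDomain_equiv_apply]
    rfl
  rw [h1]

theorem hasWaring_pred {c : ℕ} (hφ : IsForm φ c) (hφ0 : φ ≠ 0) {n r : ℕ}
    (h : HasWaring (pw φ (Fin (n + 1))) (c * (n + 1)) r) : HasWaring (pw φ (Fin n)) (c * n) r := by
  classical
  obtain ⟨co, a, h1⟩ := hasWaring_iff.mp h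
  obtain ⟨e₀, he₀⟩ : ∃ e₀ : σ →₀ ℕ, φ (monomial e₀ 1) ≠ 0 := by
    by_contra hne
    push Not at hne
    apply hφ0
    refine MvPolynomial.linearMap_ext fun e => LinearMap.ext_ring ?_
    simpa using hne e
  have hdeg : e₀.degree = c := by
    by_contra h2
    exact he₀ (hφ _ h2)
  refine hasWaring_iff.mpr ⟨fun s => co s * ev (fun i => a s (0, i)) e₀ * (φ (monomial e₀ 1))⁻¹,
    fun s q => a s (q.1.succ, q.2), fun e he => ?_⟩
  let e' : (Fin (n + 1) × σ) →₀ ℕ := Finsupp.equivFunOnFinite.symm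
    fun q => Fin.cases (e₀ q.2) (fun j => e (j, q.2)) q.1
  have h0 : e'.curry 0 = e₀ := by
    ext i
    rw [Finsupp.curry_apply]
    rfl
  have hs : ∀ j : Fin n, e'.curry j.succ = e.curry j := by
    intro j
    ext i
    rw [Finsupp.curry_apply, Finsupp.curry_apply]
    rfl
  have hdeg' : e'.degree = c * (n + 1) := by
    rw [degree_curry, Fin.sum_univ_succ, h0, hdeg]
    simp only [hs]
    rw [← degree_curry, he]
    ring
  have h2 := h1 e' hdeg'
  rw [pw_monomial, Fin.prod_univ_succ, h0] at h2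
  simp only [hs] at h2
  rw [← pw_monomial] at h2
  have h3 : ∀ s, (e'.prod fun q m => a s q ^ m) =
      ev (fun i => a s (0, i)) e₀ * e.prod fun q m => a s (q.1.succ, q.2) ^ m := by
    intro s
    have h4 := ev_fintype (a s) e'
    have h5 := ev_fintype (fun q : Fin n × σ => a s (q.1.succ, q.2)) e
    rw [ev] at h4 h5
    rw [h4, h5, ev_fintype, Fintype.prod_prod_type, Fin.prod_univ_succ, Fintype.prod_prod_type]
    rfl
  have h6 : pw φ (Fin n) (monomial e 1) =
      (φ (monomial e₀ 1))⁻¹ * ∑ s, co s * e'.prod fun q m => a s q ^ m := by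
    rw [← h2]
    field_simp
  rw [h6, Finset.mul_sum]
  refine Finset.sum_congr rfl fun s _ => ?_
  rw [h3]
  ring

theorem hasWaring_le {c : ℕ} (hφ : IsForm φ c) (hφ0 : φ ≠ 0) {n n' : ℕ} (hn : n ≤ n') {r : ℕ}
    (h : HasWaring (pw φ (Fin n')) (c * n') r) : HasWaring (pw φ (Fin n)) (c * n) r := by
  induction n', hn using Nat.le_induction with
  | base => exact h
  | succ m _ ih => exact ih (hasWaring_pred hφ hφ0 h)

end reindex

section finite

variable {k : Type*} [Field k]

/-- every form has a Waring rank -/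
theorem exists_hasWaring [Infinite k] {τ : Type} [Fintype τ] (ψ : MvPolynomial τ k →ₗ[k] k)
    (L : ℕ) : ∃ r, HasWaring ψ L r := by
  classical
  have := finite_exps τ L
  have : Fintype (Exps τ L) := Fintype.ofFinite _
  let U : Submodule k (Exps τ L → k) :=
    Submodule.span k (Set.range fun (a : τ → k) => fun e : Exps τ L => ev a e.1)
  have hU : (fun e : Exps τ L => ψ (monomial e.1 1)) ∈ U := by
    by_contra hnot
    obtain ⟨ℓ, hℓ0, hℓ⟩ := Submodule.exists_le_ker_of_notMem hnot
    let lc (p : Exps τ L) : k := ℓ (Pi.single p 1)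
    have hℓf : ∀ S, ℓ S = ∑ p, S p * lc p := by
      intro S
      have : S = ∑ p : Exps τ L, S p • (Pi.single p (1 : k) : Exps τ L → k) := by
        funext x
        simp only [Finset.sum_apply, Pi.smul_apply, smul_eq_mul]
        rw [Finset.sum_eq_single x]
        · simp
        · intro y _ h
          rw [Pi.single_eq_of_ne (Ne.symm h), mul_zero]
        · intro hh; exact absurd (Finset.mem_univ _) hh
      conv_lhs => rw [this]
      rw [map_sum]
      exact Finset.sum_congr rfl fun p _ => by rw [map_smul, smul_eq_mul]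
    let F : MvPolynomial τ k := ∑ p : Exps τ L, monomial p.1 (lc p)
    have hF0 : F = 0 := by
      apply MvPolynomial.funext
      intro v
      rw [map_zero]
      have h1 : ℓ (fun e : Exps τ L => ev v e.1) = 0 := hℓ (Submodule.subset_span ⟨v, rfl⟩)
      rw [hℓf] at h1
      rw [← h1]
      simp only [F, map_sum, eval_monomial]
      refine Finset.sum_congr rfl fun p _ => ?_
      rw [mul_comm]
      rfl
    have h2 : ∀ p : Exps τ L, lc p = 0 := by
      intro p
      have h3 := congrArg (coeff p.1) hF0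
      simp only [F, coeff_sum, coeff_monomial, coeff_zero] at h3
      rw [Finset.sum_eq_single p] at h3
      · simpa using h3
      · intro q _ hq
        rw [if_neg]
        intro h4
        exact hq (Subtype.ext h4)
      · intro h4; exact absurd (Finset.mem_univ _) h4
    apply hℓ0
    rw [hℓf]
    simp [h2]
  obtain ⟨n, c, a, h⟩ := Submodule.mem_span_set'.mp hU
  have h1 := fun i => (a i).2
  choose v hv using h1
  refine ⟨n, HasWaring.of_fintype (ι := Fin n) (by simp) c v fun e he => ?_⟩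
  have h3 := congrFun h ⟨e, he⟩
  simp only [Finset.sum_apply, Pi.smul_apply, smul_eq_mul] at h3
  rw [← h3]
  refine Finset.sum_congr rfl fun s _ => ?_
  rw [← congrFun (hv s) ⟨e, he⟩]
  rfl

theorem hasWaring_rank [Infinite k] {τ : Type} [Fintype τ] (ψ : MvPolynomial τ k →ₗ[k] k)
    (L : ℕ) : HasWaring ψ L (waringRank ψ L) :=
  Nat.sInf_mem (s := {r | HasWaring ψ L r}) (exists_hasWaring ψ L)

theorem waringRank_le {τ : Type} {ψ : MvPolynomial τ k →ₗ[k] k} {L r : ℕ}
    (h : HasWaring ψ L r) : waringRank ψ L ≤ r := Nat.sInf_le h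

end finite

end Pool.Agent.H2.WG
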