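import Pool.Agent.H2.WG.Span
import Pool.Agent.H14.MM.Lower

/-!
# Powers of forms on smoothable schemes
-/

open TensorProduct Module

namespace Pool.Agent.H2.WG

open Pool.Agent.H12.Defect
open Pool.Agent.H14.MM (finrank_family_le ccAlg ccAlg_apply)

universe u

variable {k : Type u} [Field k]

/-- If `B` is smoothable and `B → A` is surjective, then the powers of the form
`e ↦ w (∏ q, u q ^ e q)` of degree `L` are sums of at most `poly(M) * (dim B) ^ M` products of `M`
powers of linear forms. -/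
theorem smoothable_form [Infinite k] {B : Type u} [CommRing B] [Algebra k B]
    (hB : IsSmoothable k B) {A : Type*} [CommRing A] [Algebra k A] (g : B →ₐ[k] A)
    (hg : Function.Surjective g) {τ : Type} {L : ℕ} [Fintype (Exps τ L)]
    (u : τ → A) (w : A →ₗ[k] k) (M : ℕ) :
    PR (Mpow M (fun e : Exps τ L => w (ev u e.1)))
      ((M + 1) ^ (Fintype.card (Exps τ L)) * (finrank k B) ^ M) := by
  classical
  have hfinB : Module.Finite k B := (hB.finrank_le (ι := Unit) (fun _ => 0)).1
  obtain ⟨𝒜, _, _, hfin, hflat, hred, π, hπ, hker, hC⟩ := hB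
  have hfree : Module.Free (PowerSeries k) 𝒜 := Module.free_of_flat_of_isLocalRing
  have hrk := finrank_family_le hker hC
  have hsm := red_smul (k := k) hker hC
  let Ω := AlgebraicClosure (LaurentSeries k)
  have : Module.Flat (PowerSeries k) (LaurentSeries k) :=
    IsLocalization.flat _ (nonZeroDivisors (PowerSeries k))
  have hred' : IsReduced (Ω ⊗[PowerSeries k] 𝒜) := by
    have h1 : IsReduced (Ω ⊗[LaurentSeries k] (LaurentSeries k ⊗[PowerSeries k] 𝒜)) :=
      (Algebra.isGeometricallyReduced_field_iff _ _).mp hred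
    exact isReduced_of_injective
      (Algebra.TensorProduct.cancelBaseChange (PowerSeries k) (LaurentSeries k) Ω Ω 𝒜).symm
      (Algebra.TensorProduct.cancelBaseChange (PowerSeries k) (LaurentSeries k) Ω Ω 𝒜).symm.injective
  have hinj : Function.Injective (algebraMap (PowerSeries k) Ω) := by
    rw [IsScalarTower.algebraMap_eq (PowerSeries k) (LaurentSeries k) Ω]
    exact (algebraMap (LaurentSeries k) Ω).injective.comp
      (IsFractionRing.injective (PowerSeries k) (LaurentSeries k))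
  let b := Module.Free.chooseBasis (PowerSeries k) 𝒜
  have hπsum : ∀ a : 𝒜, π a = ∑ l, PowerSeries.constantCoeff (b.repr a l) • π (b l) := by
    intro a
    conv_lhs => rw [← b.sum_repr a]
    rw [map_sum]
    exact Finset.sum_congr rfl (fun l _ => hsm _ _)
  -- lifts
  choose u' hu' using fun q => (hg.comp hπ) (u q)
  let w' : 𝒜 →ₗ[PowerSeries k] PowerSeries k :=
    b.constr (PowerSeries k) (fun l => PowerSeries.C (w (g (π (b l)))))
  have hw' : ∀ a, PowerSeries.constantCoeff (w' a) = w (g (π a)) := by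
    intro a
    rw [hπsum a, map_sum, map_sum]
    simp only [w', Basis.constr_apply_fintype, map_sum, smul_eq_mul, map_mul, map_smul,
      PowerSeries.constantCoeff_C, Basis.equivFun_apply]
  have hT0 : (fun e : Exps τ L => w (ev u e.1)) = fun e => ccAlg k (w' (ev u' e.1)) := by
    funext e
    rw [ccAlg_apply, hw', map_ev π]
    congr 1
    have h1 := map_ev (g : B →+* A) (fun q => π (u' q)) e.1
    refine Eq.trans ?_ h1.symm
    congr 1
    funext q
    exact (hu' q).symm
  rw [hT0]
  let _ : Algebra k Ω :=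
    ((algebraMap (PowerSeries k) Ω).comp (algebraMap k (PowerSeries k))).toAlgebra
  have htower : IsScalarTower k (PowerSeries k) Ω := IsScalarTower.of_algebraMap_eq (fun _ => rfl)
  refine (PR_of_mem_span (Mpow_mem_span (Ω := Ω) hinj (ccAlg k) (fun e => w' (ev u' e.1))
    (D := finrank (PowerSeries k) 𝒜) ?_ M)).mono (Nat.mul_le_mul_left _ (Nat.pow_le_pow_left hrk M))
  obtain ⟨σ', _, ⟨e⟩⟩ := exists_algEquiv_pi Ω (Ω ⊗[PowerSeries k] 𝒜)
  have hcard : Fintype.card σ' = finrank (PowerSeries k) 𝒜 := by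
    rw [← Module.finrank_baseChange (R := Ω) (S := PowerSeries k) (M' := 𝒜)]
    rw [e.toLinearEquiv.finrank_eq, Module.finrank_fintype_fun_eq_card]
  let en : Fin (Fintype.card σ') ≃ σ' := (Fintype.equivFin σ').symm
  refine ⟨Fin (Fintype.card σ'), inferInstance,
    fun s => ext Ω w' (e.symm (Pi.single (en s) 1)), fun s q => e (1 ⊗ₜ u' q) (en s),
    by rw [Fintype.card_fin, hcard], ?_⟩
  intro x
  rw [en.sum_comp (fun s => ext Ω w' (e.symm (Pi.single s 1)) * ev (fun q => e (1 ⊗ₜ u' q) s) x.1)]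
  have h0 : e (1 ⊗ₜ ev u' x.1) = ev (fun q => e (1 ⊗ₜ u' q)) x.1 := by
    have h3 := map_ev ((e : Ω ⊗[PowerSeries k] 𝒜 →+* (σ' → Ω)).comp
      ((Algebra.TensorProduct.includeRight : 𝒜 →ₐ[PowerSeries k] Ω ⊗[PowerSeries k] 𝒜) :
        𝒜 →+* Ω ⊗[PowerSeries k] 𝒜)) u' x.1
    exact h3
  have h1 : algebraMap (PowerSeries k) Ω (w' (ev u' x.1)) =
      ext Ω w' (e.symm (e (1 ⊗ₜ ev u' x.1))) := by
    rw [AlgEquiv.symm_apply_apply, ext_tmul, Algebra.smul_def, mul_one]
  have h2 : ev (fun q => e (1 ⊗ₜ u' q)) x.1 =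
      ∑ s, (ev (fun q => e (1 ⊗ₜ u' q) s) x.1) • (Pi.single s (1 : Ω) : σ' → Ω) := by
    funext s
    rw [Finset.sum_apply, Finset.sum_eq_single s]
    · rw [Pi.smul_apply, Pi.single_eq_same, smul_eq_mul, mul_one]
      exact map_ev (Pi.evalRingHom (fun _ : σ' => Ω) s) (fun q => e (1 ⊗ₜ u' q)) x.1
    · intro s' _ hs'
      rw [Pi.smul_apply, Pi.single_eq_of_ne (Ne.symm hs'), smul_zero]
    · intro hh; exact absurd (Finset.mem_univ _) hh
  show algebraMap (PowerSeries k) Ω (w' (ev u' x.1)) = _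
  rw [h1, h0, h2, map_sum, map_sum]
  refine Finset.sum_congr rfl fun s _ => ?_
  rw [map_smul, map_smul, smul_eq_mul, mul_comm]

end Pool.Agent.H2.WG
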