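import Pool.Agent.H2.WG.Upper
import Pool.Agent.H2.WG.Lower
import Pool.Agent.H2.WG.Extract
import Pool.Agent.H14.RF.Growth

/-!
# The two inequalities
-/

open Module MvPolynomial TensorProduct

namespace Pool.Agent.H2.WG

open Pool.Agent.H14.RF Pool.Agent.H15.Defect Pool.Agent.H12.Defect

universe u

variable {k : Type u} [Field k] {σ : Type} [Fintype σ]

/-- the Waring rank of the `n`-th product -/
noncomputable def Wn (φ : MvPolynomial σ k →ₗ[k] k) (c n : ℕ) : ℕ :=
  waringRank (pw φ (Fin n)) (c * n)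

omit [Fintype σ] in
/-- the degree of the smallest smoothable scheme containing the `n`-th power -/
noncomputable def Dn (φ : MvPolynomial σ k →ₗ[k] k) (n : ℕ) : ℕ :=
  finrank k (FormAlg φ) ^ n + (defect k (⨂[k] _ : Fin n, FormAlg φ)).toNat

variable {φ : MvPolynomial σ k →ₗ[k] k} {c : ℕ}

theorem law_upper [Infinite k] (hφ : IsForm φ c) (n : ℕ) :
    defect k (⨂[k] _ : Fin n, FormAlg φ) ≠ ⊤ ∧ Dn φ n ≤ (c * n + 1) * Wn φ c n := by
  have := hφ.finite
  have h1 := dle_of_waring hφ (hasWaring_rank (pw φ (Fin n)) (c * n))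
  obtain ⟨h2, -, h4⟩ := defect_eq h1
  rw [finrank_power] at h4
  exact ⟨h2, h4⟩

theorem dle_Dn [Infinite k] (hφ : IsForm φ c) (n : ℕ) :
    Dle k (⨂[k] _ : Fin n, FormAlg φ) (Dn φ n) := by
  have := hφ.finite
  have h1 := dle_of_waring hφ (hasWaring_rank (pw φ (Fin n)) (c * n))
  have h2 := dle_defect h1
  rwa [finrank_power] at h2

omit [Fintype σ] in
theorem Dn_le_of_dle [Module.Finite k (FormAlg φ)] {n N : ℕ}
    (h : Dle k (⨂[k] _ : Fin n, FormAlg φ) N) : Dn φ n ≤ N := by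
  obtain ⟨-, -, h4⟩ := defect_eq h
  rwa [finrank_power] at h4

theorem ev_Theta (n : ℕ) (e : (Fin n × σ) →₀ ℕ) :
    ev (fun q : Fin n × σ => PiTensorProduct.singleAlgHom (R := k)
      (A := fun _ : Fin n => FormAlg φ) q.1 (Ideal.Quotient.mk _ (X q.2))) e =
      Theta φ n (monomial e 1) := by
  rw [Theta, aeval_monomial, map_one, one_mul]
  rfl

/-- the number of monomials of degree `c n` in `n` blocks of variables -/
noncomputable def Kn (σ : Type) (c n : ℕ) : ℕ := Nat.card (Exps (Fin n × σ) (c * n))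

theorem law_lower [Infinite k] (hφ : IsForm φ c) (n M : ℕ) :
    Wn φ c (M * n) ≤ (c * n + 1) ^ M * ((M + 1) ^ Kn σ c n * Dn φ n ^ M) := by
  have hfin := hφ.finite
  have hf := finite_exps (Fin n × σ) (c * n)
  have : Fintype (Exps (Fin n × σ) (c * n)) := Fintype.ofFinite _
  have hψ : IsForm (pw φ (Fin n)) (c * n) := by
    have := isForm_pw hφ (Fin n)
    rwa [Fintype.card_fin] at this
  obtain ⟨B, i1, i2, hB, ⟨g, hg⟩, hle⟩ := dle_Dn hφ n
  have h1 := smoothable_form hB g hg (L := c * n) (fun q : Fin n × σ =>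
    PiTensorProduct.singleAlgHom (R := k) (A := fun _ : Fin n => FormAlg φ) q.1
      (Ideal.Quotient.mk _ (X q.2))) (prodFun fun _ => ff φ) M
  have h2 : (fun e : Exps (Fin n × σ) (c * n) => (prodFun fun _ => ff φ)
      (ev (fun q : Fin n × σ => PiTensorProduct.singleAlgHom (R := k)
      (A := fun _ : Fin n => FormAlg φ) q.1 (Ideal.Quotient.mk (annIdeal φ) (X q.2))) e.1)) =
      fun e => pw φ (Fin n) (monomial e.1 1) := by
    funext e
    rw [ev_Theta, prodFun_Theta]
  rw [h2] at h1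
  have h3 := hasWaring_pw_pw (hasWaring_of_PR hψ h1)
  rw [mul_assoc c n M, mul_comm n M] at h3
  refine (waringRank_le h3).trans ?_
  rw [Kn, Nat.card_eq_fintype_card]
  exact Nat.mul_le_mul_left _ (Nat.mul_le_mul_left _ (Nat.pow_le_pow_left hle M))

theorem Wn_mono [Infinite k] (hφ : IsForm φ c) (hφ0 : φ ≠ 0) {n n' : ℕ} (h : n ≤ n') :
    Wn φ c n ≤ Wn φ c n' :=
  waringRank_le (hasWaring_le hφ hφ0 h (hasWaring_rank _ _))

omit [Fintype σ] in
theorem one_le_Dn [Module.Finite k (FormAlg φ)] (hφ0 : φ ≠ 0) (n : ℕ) : 1 ≤ Dn φ n := by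
  have := nontrivial_formAlg hφ0
  have h1 : 0 < finrank k (FormAlg φ) := Module.finrank_pos
  have h2 : 0 < finrank k (FormAlg φ) ^ n := Nat.pow_pos h1
  rw [Dn]
  omega

end Pool.Agent.H2.WG
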