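import Pool.Agent.H2.WG.Basic

/-!
# Powers of specialisations of forms of bounded Waring rank
-/

open Module

namespace Pool.Agent.H2.WG

/-- exponents of degree `L` -/
abbrev Exps (τ : Type) (L : ℕ) : Type := {e : τ →₀ ℕ // e.degree = L}

theorem finite_exps (τ : Type) [Finite τ] (L : ℕ) : Finite (Exps τ L) := by
  have h1 := Finsupp.finite_of_degree_le (σ := τ) L
  have h2 : {e : τ →₀ ℕ | e.degree = L}.Finite := h1.subset fun e he => le_of_eq he
  exact h2.to_subtype

section ev

variable {K K' : Type*} [CommRing K] [CommRing K'] {τ : Type}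

/-- the value of a monomial at a point -/
noncomputable def ev (a : τ → K) (e : τ →₀ ℕ) : K := e.prod fun q n => a q ^ n

theorem map_ev (f : K →+* K') (a : τ → K) (e : τ →₀ ℕ) :
    f (ev a e) = ev (fun q => f (a q)) e := by
  simp only [ev, Finsupp.prod, map_prod, map_pow]

end ev

section ranks

variable {K : Type*} [CommRing K] {τ : Type} {L M : ℕ}

/-- coefficient functions of forms of Waring rank at most `D` -/
def WR (T : Exps τ L → K) (D : ℕ) : Prop :=
  ∃ (ι : Type) (_ : Fintype ι) (c : ι → K) (a : ι → τ → K), Fintype.card ι ≤ D ∧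
    ∀ e, T e = ∑ s, c s * ev (a s) e.1

/-- sums of at most `r` products of `M` powers of linear forms -/
def PR (S : (Fin M → Exps τ L) → K) (r : ℕ) : Prop :=
  ∃ (ι : Type) (_ : Fintype ι) (c : ι → K) (a : ι → Fin M → τ → K), Fintype.card ι ≤ r ∧
    ∀ x, S x = ∑ s, c s * ∏ j, ev (a s j) (x j).1

/-- the `M`-th power -/
def Mpow (M : ℕ) {E : Type} (T : E → K) : (Fin M → E) → K := fun x => ∏ j, T (x j)

theorem PR.mono {S : (Fin M → Exps τ L) → K} {r s : ℕ} (h : PR S r) (hrs : r ≤ s) : PR S s := by
  obtain ⟨ι, _, c, a, hr, h⟩ := h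
  exact ⟨ι, inferInstance, c, a, hr.trans hrs, h⟩

theorem PR.zero : PR (0 : (Fin M → Exps τ L) → K) 0 :=
  ⟨Empty, inferInstance, fun s => s.elim, fun s => s.elim, by simp, fun x => by simp⟩

theorem PR.add {S S' : (Fin M → Exps τ L) → K} {r s : ℕ} (h : PR S r) (h' : PR S' s) :
    PR (S + S') (r + s) := by
  obtain ⟨ι, _, c, a, hr, h⟩ := h
  obtain ⟨ι', _, c', a', hr', h'⟩ := h'
  refine ⟨ι ⊕ ι', inferInstance, Sum.elim c c', Sum.elim a a', ?_, ?_⟩
  · rw [Fintype.card_sum]; omega
  · intro x
    simp [Fintype.sum_sum_type, h, h']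

theorem PR.smul {S : (Fin M → Exps τ L) → K} {r : ℕ} (h : PR S r) (t : K) : PR (t • S) r := by
  obtain ⟨ι, _, c, a, hr, h⟩ := h
  refine ⟨ι, inferInstance, fun s => t * c s, a, hr, fun x => ?_⟩
  simp only [Pi.smul_apply, smul_eq_mul, h, Finset.mul_sum, mul_assoc]

theorem PR.sum {α : Type*} (s : Finset α) (S : α → (Fin M → Exps τ L) → K) {r : ℕ}
    (h : ∀ i ∈ s, PR (S i) r) : PR (∑ i ∈ s, S i) (s.card * r) := by
  classical
  induction s using Finset.induction_on with
  | empty => simpa using PR.zero
  | insert i s hi ih =>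
    rw [Finset.sum_insert hi, Finset.card_insert_of_notMem hi]
    have h1 := (h i (Finset.mem_insert_self i s)).add
      (ih fun j hj => h j (Finset.mem_insert_of_mem hj))
    exact h1.mono (le_of_eq (by ring))

theorem WR.pow {T : Exps τ L → K} {D : ℕ} (h : WR T D) (M : ℕ) : PR (Mpow M T) (D ^ M) := by
  classical
  obtain ⟨ι, _, c, a, hr, h⟩ := h
  refine ⟨Fin M → ι, inferInstance, fun s => ∏ j, c (s j), fun s j => a (s j), ?_, ?_⟩
  · rw [Fintype.card_fun, Fintype.card_fin]
    exact Nat.pow_le_pow_left hr _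
  · intro x
    simp only [Mpow, h]
    rw [Finset.prod_univ_sum]
    simp only [Fintype.piFinset_univ]
    refine Finset.sum_congr rfl fun s _ => ?_
    rw [Finset.prod_mul_distrib]

end ranks

section chi

variable (k : Type*) [Field k]

/-- indicator of multi-indices with given content -/
noncomputable def chi (E : Type) (M : ℕ) (e : E → Fin (M + 1)) : (Fin M → E) → k := by
  classical
  exact fun x => if ∀ a, (Finset.univ.filter fun j => x j = a).card = (e a : ℕ) then 1 else 0

variable {k}

theorem Mpow_mem_chi {E : Type} [Fintype E] (M : ℕ) (T : E → k) :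
    Mpow M T ∈ Submodule.span k (Set.range (chi k E M)) := by
  classical
  have h1 : Mpow M T = ∑ e : E → Fin (M + 1), (∏ a, T a ^ (e a : ℕ)) • chi k E M e := by
    funext x
    simp only [Finset.sum_apply, Pi.smul_apply, smul_eq_mul]
    let e₀ : E → Fin (M + 1) := fun a =>
      ⟨(Finset.univ.filter fun j => x j = a).card, by
        have := Finset.card_le_univ (Finset.univ.filter fun j : Fin M => x j = a)
        rw [Fintype.card_fin] at this
        omega⟩
    rw [Finset.sum_eq_single e₀]
    · have h2 : chi k E M e₀ x = 1 := by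
        rw [chi, if_pos]
        intro a; rfl
      rw [h2, mul_one, Mpow]
      rw [← Finset.prod_fiberwise (s := Finset.univ) (g := fun j => x j)]
      refine Finset.prod_congr rfl fun a _ => ?_
      have : ∀ j ∈ Finset.univ.filter (fun j => x j = a), T (x j) = T a := by
        intro j hj
        rw [Finset.mem_filter] at hj
        rw [← hj.2]
      rw [Finset.prod_congr rfl this, Finset.prod_const]
    · intro e _ he
      rw [chi, if_neg, mul_zero]
      intro h
      apply he
      funext a
      apply Fin.ext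
      rw [← h a]
    · intro hh; exact absurd (Finset.mem_univ _) hh
  rw [h1]
  exact Submodule.sum_mem _ fun e _ => Submodule.smul_mem _ _ (Submodule.subset_span ⟨e, rfl⟩)

end chi

section span

variable {k : Type*} [Field k] {τ : Type} {L : ℕ}

/-- powers of forms of Waring rank at most `D` -/
def wpows (k : Type*) [Field k] (τ : Type) (L D M : ℕ) : Set ((Fin M → Exps τ L) → k) :=
  {S | ∃ T : Exps τ L → k, WR T D ∧ S = Mpow M T}

theorem PR_of_mem_span [Fintype (Exps τ L)] {D M : ℕ} {S : (Fin M → Exps τ L) → k}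
    (hS : S ∈ Submodule.span k (wpows k τ L D M)) :
    PR S ((M + 1) ^ (Fintype.card (Exps τ L)) * D ^ M) := by
  classical
  obtain ⟨b, hb, hspan, hli⟩ := exists_linearIndependent k (wpows k τ L D M)
  let U : Submodule k ((Fin M → Exps τ L) → k) :=
    Submodule.span k (Set.range (chi k (Exps τ L) M))
  have hbU : ∀ v : b, (v : (Fin M → Exps τ L) → k) ∈ U := by
    intro v
    obtain ⟨T, _, hT⟩ := hb v.2
    rw [hT]
    exact Mpow_mem_chi M T
  have hli' : LinearIndependent k (fun v : b => (⟨v, hbU v⟩ : U)) := by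
    apply LinearIndependent.of_comp U.subtype
    exact hli
  have : Fintype b := @Fintype.ofFinite _ hli'.finite
  have hcard : Fintype.card b ≤ (M + 1) ^ (Fintype.card (Exps τ L)) := by
    refine hli'.fintype_card_le_finrank.trans ?_
    have h1 := finrank_range_le_card (R := k) (chi k (Exps τ L) M)
    refine h1.trans (le_of_eq ?_)
    rw [Fintype.card_fun, Fintype.card_fin]
  rw [← hspan, ← Set.coe_toFinset b, Submodule.mem_span_finset] at hS
  obtain ⟨f, -, rfl⟩ := hS
  refine (PR.sum b.toFinset _ (r := D ^ M) ?_).mono ?_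
  · intro v hv
    rw [Set.mem_toFinset] at hv
    obtain ⟨T, hT, hvT⟩ := hb hv
    rw [hvT]
    exact (hT.pow M).smul _
  · rw [Set.toFinset_card]
    exact Nat.mul_le_mul_right _ hcard

/-- Specialisation: if a form over `R` has Waring rank `≤ D` over an extension field `Ω` of `R`,
then the powers of its specialisation to `k` are in the span of the powers of forms of Waring rank
`≤ D`. -/
theorem Mpow_mem_span [Infinite k] [Fintype (Exps τ L)] {R Ω : Type*} [CommRing R] [Field Ω]
    [Algebra k R] [Algebra k Ω]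
    [Algebra R Ω] [IsScalarTower k R Ω] (hinj : Function.Injective (algebraMap R Ω))
    (sp : R →ₐ[k] k) (T : Exps τ L → R) {D : ℕ}
    (hT : WR (fun x => algebraMap R Ω (T x)) D) (M : ℕ) :
    Mpow M (fun x => sp (T x)) ∈ Submodule.span k (wpows k τ L D M) := by
  classical
  by_contra hnot
  obtain ⟨ℓ, hℓ0, hℓ⟩ := Submodule.exists_le_ker_of_notMem hnot
  let lc (p : Fin M → Exps τ L) : k := ℓ (Pi.single p 1)
  have hℓf : ∀ S, ℓ S = ∑ p, S p * lc p := by
    intro S
    have : S = ∑ p : Fin M → Exps τ L,
        S p • (Pi.single p (1 : k) : (Fin M → Exps τ L) → k) := by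
      funext x
      simp only [Finset.sum_apply, Pi.smul_apply, smul_eq_mul]
      rw [Finset.sum_eq_single x]
      · simp
      · intro y _ h
        rw [Pi.single_eq_of_ne (Ne.symm h), mul_zero]
      · intro hh; exact absurd (Finset.mem_univ _) hh
    conv_lhs => rw [this]
    rw [map_sum]
    exact Finset.sum_congr rfl fun p _ => by rw [map_smul, smul_eq_mul]
  obtain ⟨ι, _, c, a, hcard, habc⟩ := hT
  let F : MvPolynomial (ι × Option τ) k :=
    ∑ p : Fin M → Exps τ L, (∏ j, ∑ s : ι, MvPolynomial.X (s, none) *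
      ev (fun q => MvPolynomial.X (s, some q)) (p j).1) * MvPolynomial.C (lc p)
  have hF0 : F = 0 := by
    apply MvPolynomial.funext
    intro v
    rw [map_zero]
    let T' : Exps τ L → k := fun e => ∑ s : ι, v (s, none) * ev (fun q => v (s, some q)) e.1
    have hT' : WR T' D :=
      ⟨ι, inferInstance, fun s => v (s, none), fun s q => v (s, some q), hcard, fun x => rfl⟩
    have h1 : ℓ (Mpow M T') = 0 := hℓ (Submodule.subset_span ⟨T', hT', rfl⟩)
    rw [hℓf] at h1
    rw [← h1]
    simp only [F, map_sum, map_mul, map_prod, MvPolynomial.eval_X, MvPolynomial.eval_C, Mpow, T',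
      map_ev]
  have h2 : MvPolynomial.aeval (fun q : ι × Option τ => q.2.elim (c q.1) (a q.1)) F = 0 := by
    rw [hF0, map_zero]
  have h3 : algebraMap R Ω (∑ p : Fin M → Exps τ L,
      (∏ j, T (p j)) * algebraMap k R (lc p)) = 0 := by
    rw [← h2]
    have h5 : ∀ (s : ι) (e : τ →₀ ℕ),
        MvPolynomial.aeval (fun q : ι × Option τ => q.2.elim (c q.1) (a q.1))
          (ev (fun q => (MvPolynomial.X (s, some q) : MvPolynomial (ι × Option τ) k)) e) =
        ev (a s) e := by
      intro s e
      have h6 := map_ev (MvPolynomial.aeval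
        (fun q : ι × Option τ => q.2.elim (c q.1) (a q.1)) :
          MvPolynomial (ι × Option τ) k →ₐ[k] Ω).toRingHom
        (fun q => (MvPolynomial.X (s, some q) : MvPolynomial (ι × Option τ) k)) e
      refine h6.trans ?_
      congr 1
      funext q
      show MvPolynomial.aeval _ (MvPolynomial.X (s, some q)) = _
      rw [MvPolynomial.aeval_X]
      rfl
    simp only [F, map_sum, map_mul, map_prod, MvPolynomial.aeval_X, MvPolynomial.aeval_C,
      ← habc, ← IsScalarTower.algebraMap_apply, h5, Option.elim_none]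
  have h4 : ∑ p : Fin M → Exps τ L, (∏ j, T (p j)) * algebraMap k R (lc p) = 0 := by
    apply hinj
    rw [h3, map_zero]
  have h5 := congrArg sp h4
  rw [map_zero] at h5
  apply hℓ0
  rw [hℓf, ← h5]
  simp only [map_sum, map_mul, map_prod, AlgHom.commutes, Mpow, Algebra.algebraMap_self,
    RingHom.id_apply]

end span

end Pool.Agent.H2.WG
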