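import Pool.Agent.H2.WG.Trunc
import Pool.Agent.H2.WG.Apolar

/-!
# Upper bound: Waring decompositions give smoothable covers
-/

open Module MvPolynomial TensorProduct

namespace Pool.Agent.H2.WG

open Pool.Agent.H14.RF Pool.Agent.H15.Defect

universe u

variable {k : Type u} [Field k]

/-- the homomorphism given by a linear form -/
noncomputable def lineHom {τ : Type} (L : ℕ) (a : τ → k) : MvPolynomial τ k →ₐ[k] Tr k L :=
  aeval fun q => a q • tr k L

theorem lineHom_monomial {τ : Type} (L : ℕ) (a : τ → k) (e : τ →₀ ℕ) :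
    lineHom L a (monomial e 1) = (e.prod fun q n => a q ^ n) • tr k L ^ e.degree := by
  rw [lineHom, aeval_monomial, map_one, one_mul, Finsupp.prod, Finsupp.prod]
  simp only [smul_pow]
  rw [Finset.prod_smul, Finset.prod_pow_eq_pow_sum, Finsupp.degree_apply]

/-- A form of Waring rank `r` is a sum of functionals which factor through truncated polynomial
rings. -/
theorem eq_sum_of_waring {τ : Type} {ψ : MvPolynomial τ k →ₗ[k] k} {L : ℕ} (hψ : IsForm ψ L)
    {r : ℕ} {c : Fin r → k} {a : Fin r → τ → k}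
    (h : ∀ e : τ →₀ ℕ, e.degree = L →
      ψ (monomial e 1) = ∑ s, c s * e.prod fun q n => a s q ^ n)
    {w : Tr k L →ₗ[k] k} (hw : ∀ j, w (tr k L ^ j) = if j = L then 1 else 0)
    (g : MvPolynomial τ k) : ψ g = ∑ s, c s * w (lineHom L (a s) g) := by
  have h1 : ψ = ∑ s, c s • (w ∘ₗ (lineHom L (a s)).toLinearMap) := by
    refine MvPolynomial.linearMap_ext fun e => LinearMap.ext_ring ?_
    simp only [LinearMap.coe_comp, Function.comp_apply, LinearMap.sum_apply, LinearMap.smul_apply,
      AlgHom.toLinearMap_apply, smul_eq_mul, lineHom_monomial, map_smul, hw]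
    by_cases he : e.degree = L
    · rw [h e he]
      simp [he]
    · rw [hψ e he]
      simp [he]
  conv_lhs => rw [h1]
  simp only [LinearMap.coe_comp, Function.comp_apply, LinearMap.sum_apply, LinearMap.smul_apply,
    AlgHom.toLinearMap_apply, smul_eq_mul]

/-- **Upper bound.** -/
theorem dle_of_waring {σ : Type} [Fintype σ] {φ : MvPolynomial σ k →ₗ[k] k} {c : ℕ}
    (hφ : IsForm φ c) {n r : ℕ} (h : HasWaring (pw φ (Fin n)) (c * n) r) :
    Dle k (⨂[k] _ : Fin n, FormAlg φ) ((c * n + 1) * r) := by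
  have hfin := hφ.finite
  have hψ : IsForm (pw φ (Fin n)) (c * n) := by
    have := isForm_pw hφ (Fin n)
    rwa [Fintype.card_fin] at this
  obtain ⟨co, a, h⟩ := hasWaring_iff.mp h
  obtain ⟨w, hw⟩ := exists_trFun k (c * n)
  have h1 := (dle_trunc k (c * n)).pi r
  let Ψ : MvPolynomial (Fin n × σ) k →ₐ[k] (Fin r → Tr k (c * n)) :=
    AlgHom.pi fun s => lineHom (c * n) (a s)
  have h2 : Dle k (MvPolynomial (Fin n × σ) k ⧸ RingHom.ker Ψ) (r * (c * n + 1)) :=
    h1.of_injective (Ideal.kerLiftAlg Ψ) (Ideal.kerLiftAlg_injective Ψ)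
  have hle : ∀ g ∈ RingHom.ker Ψ, Theta φ n g = 0 := by
    intro g hg
    rw [RingHom.mem_ker] at hg
    refine Theta_eq_zero φ fun q => ?_
    rw [eq_sum_of_waring hψ h hw]
    refine Finset.sum_eq_zero fun s _ => ?_
    have h3 : lineHom (c * n) (a s) g = 0 := congrFun hg s
    rw [map_mul, h3, zero_mul, map_zero, mul_zero]
  let F : (MvPolynomial (Fin n × σ) k ⧸ RingHom.ker Ψ) →ₐ[k] (⨂[k] _ : Fin n, FormAlg φ) :=
    Ideal.Quotient.liftₐ (RingHom.ker Ψ) (Theta φ n) hle
  have hF : Function.Surjective F := by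
    intro z
    obtain ⟨g, rfl⟩ := Theta_surjective φ n z
    exact ⟨Ideal.Quotient.mk _ g, rfl⟩
  exact (h2.of_surjective F hF).mono (le_of_eq (mul_comm _ _))

end Pool.Agent.H2.WG
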